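import Pool.Agent.H484.AL.Stm

/-!
Project AL (helper484): the abstract Riesz product inequality `S_RP`.
-/

set_option autoImplicit false

namespace Pool.Agent.H484.AL

open Finset
open scoped Classical

/-- expansion of a product of real parts -/
theorem rp_expand {ι : Type} (J : Finset ι) (z : ι → ℂ) :
    ((∏ k ∈ J, (z k).re : ℝ) : ℂ) =
      (1 / 2 : ℂ) ^ J.card * ∑ T ∈ J.powerset,
        (∏ k ∈ T, z k) * ∏ k ∈ J \ T, (starRingEnd ℂ) (z k) := by
  rw [← Finset.prod_add, ← Finset.prod_const, ← Finset.prod_mul_distrib, Complex.ofReal_prod]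
  refine Finset.prod_congr rfl fun k _ => ?_
  rw [Complex.re_eq_add_conj]
  ring

/-- the sum over `x` of a function times a product of real parts -/
theorem rp_sum {X ι : Type} [Fintype X] (J : Finset ι) (w : ι → ℂ) (χ : ι → X → ℂ) (h : X → ℂ) :
    ∑ x, h x * ((∏ k ∈ J, (w k * χ k x).re : ℝ) : ℂ) =
      (1 / 2 : ℂ) ^ J.card * ∑ T ∈ J.powerset,
        ((∏ k ∈ T, w k) * ∏ k ∈ J \ T, (starRingEnd ℂ) (w k)) *
          ∑ x, h x * ((∏ k ∈ T, χ k x) * (∏ k ∈ J \ T, (starRingEnd ℂ) (χ k x))) := by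
  have h1 : ∀ x, h x * ((∏ k ∈ J, (w k * χ k x).re : ℝ) : ℂ) =
      ∑ T ∈ J.powerset, (1 / 2 : ℂ) ^ J.card * (((∏ k ∈ T, w k) *
        ∏ k ∈ J \ T, (starRingEnd ℂ) (w k)) *
        (h x * ((∏ k ∈ T, χ k x) * (∏ k ∈ J \ T, (starRingEnd ℂ) (χ k x))))) := by
    intro x
    rw [rp_expand, Finset.mul_sum, Finset.mul_sum]
    refine Finset.sum_congr rfl fun T _ => ?_
    simp only [map_mul, Finset.prod_mul_distrib]
    ring
  rw [Finset.sum_congr rfl fun x _ => h1 x, Finset.sum_comm, Finset.mul_sum]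
  refine Finset.sum_congr rfl fun T _ => ?_
  rw [Finset.mul_sum, Finset.mul_sum]

theorem t_RP : S_RP := by
  intro X ι _ K χ g Mx b h1 h2 h3 h4 h5
  -- the unimodular factors
  have hw : ∀ k : ι, ∃ c : ℂ, ‖c‖ = 1 ∧
      ((‖∑ x, (g x : ℂ) * χ k x‖ : ℝ) : ℂ) = c * ∑ x, (g x : ℂ) * χ k x :=
    fun k => Complex.exists_norm_eq_mul_self _
  choose w hw1 hw2 using hw
  -- the Riesz product
  let F : X → ℝ := fun x => ∏ k ∈ K, (1 + (w k * χ k x).re)
  have hF0 : ∀ x, 0 ≤ F x := by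
    intro x
    refine Finset.prod_nonneg fun k hk => ?_
    have h6 : |(w k * χ k x).re| ≤ 1 := by
      refine le_trans (Complex.abs_re_le_norm _) ?_
      rw [norm_mul, hw1, h1 k hk, one_mul]
    have := (abs_le.1 h6).1
    linarith
  have hFe : ∀ x, F x = ∑ J ∈ K.powerset, ∏ k ∈ J, (w k * χ k x).re := fun x =>
    Finset.prod_one_add K
  -- the sums
  let A : Finset ι → ℝ := fun J => ∑ x, g x * ∏ k ∈ J, (w k * χ k x).re
  let B : Finset ι → ℝ := fun J => ∑ x, ∏ k ∈ J, (w k * χ k x).re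
  have hB : ∀ J ∈ K.powerset, J ≠ ∅ → B J = 0 := by
    intro J hJ hne
    have h6 := rp_sum J w χ (fun _ => (1 : ℂ))
    have h7 : ((B J : ℝ) : ℂ) = 0 := by
      have e : ((B J : ℝ) : ℂ) = ∑ x, (1 : ℂ) * ((∏ k ∈ J, (w k * χ k x).re : ℝ) : ℂ) := by
        show ((∑ x, ∏ k ∈ J, (w k * χ k x).re : ℝ) : ℂ) = _
        rw [Complex.ofReal_sum]
        exact Finset.sum_congr rfl fun x _ => (one_mul _).symm
      rw [e, h6]
      rw [Finset.sum_eq_zero, mul_zero]
      intro T hT
      have h8 := h4 J (Finset.mem_powerset.1 hJ) (Finset.nonempty_iff_ne_empty.2 hne) T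
        (Finset.mem_powerset.1 hT)
      have h9 : ∑ x, (1 : ℂ) * ((∏ k ∈ T, χ k x) *
          (∏ k ∈ J \ T, (starRingEnd ℂ) (χ k x))) = 0 := by
        rw [← h8]
        exact Finset.sum_congr rfl fun x _ => one_mul _
      rw [h9, mul_zero]
    exact_mod_cast h7
  have hA : ∀ J ∈ K.powerset, 2 ≤ J.card → -b J ≤ A J := by
    intro J hJ hc
    have h6 := rp_sum J w χ (fun x => (g x : ℂ))
    have e : ((A J : ℝ) : ℂ) = ∑ x, (g x : ℂ) * ((∏ k ∈ J, (w k * χ k x).re : ℝ) : ℂ) := by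
      show ((∑ x, g x * ∏ k ∈ J, (w k * χ k x).re : ℝ) : ℂ) = _
      rw [Complex.ofReal_sum]
      exact Finset.sum_congr rfl fun x _ => Complex.ofReal_mul _ _
    have h7 : |A J| ≤ b J := by
      have e2 : |A J| = ‖((A J : ℝ) : ℂ)‖ := by rw [Complex.norm_real, Real.norm_eq_abs]
      rw [e2, e, h6, norm_mul]
      have h8 : ‖∑ T ∈ J.powerset, ((∏ k ∈ T, w k) * ∏ k ∈ J \ T, (starRingEnd ℂ) (w k)) *
          ∑ x, (g x : ℂ) * ((∏ k ∈ T, χ k x) * (∏ k ∈ J \ T, (starRingEnd ℂ) (χ k x)))‖ ≤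
          2 ^ J.card * b J := by
        refine le_trans (norm_sum_le _ _) ?_
        have h9 : ∀ T ∈ J.powerset, ‖((∏ k ∈ T, w k) * ∏ k ∈ J \ T, (starRingEnd ℂ) (w k)) *
            ∑ x, (g x : ℂ) * ((∏ k ∈ T, χ k x) *
              (∏ k ∈ J \ T, (starRingEnd ℂ) (χ k x)))‖ ≤ b J := by
          intro T hT
          rw [norm_mul, norm_mul, norm_prod, norm_prod]
          have n1 : ∏ k ∈ T, ‖w k‖ = 1 := Finset.prod_eq_one fun k _ => hw1 k
          have n2 : ∏ k ∈ J \ T, ‖(starRingEnd ℂ) (w k)‖ = 1 :=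
            Finset.prod_eq_one fun k _ => by rw [RCLike.norm_conj]; exact hw1 k
          rw [n1, n2, one_mul, one_mul]
          exact h5 J (Finset.mem_powerset.1 hJ) hc T (Finset.mem_powerset.1 hT)
        refine le_trans (Finset.sum_le_sum h9) ?_
        rw [Finset.sum_const, Finset.card_powerset, nsmul_eq_mul]
        push_cast
        exact le_refl _
      have h10 : ‖(1 / 2 : ℂ) ^ J.card‖ = (1 / 2 : ℝ) ^ J.card := by
        rw [norm_pow]
        norm_num
      rw [h10]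
      refine le_trans (mul_le_mul_of_nonneg_left h8 (by positivity)) ?_
      rw [← mul_assoc, ← mul_pow]
      norm_num
    have := (abs_le.1 h7).1
    exact this
  have hA1 : ∀ k : ι, A {k} = ‖∑ x, (g x : ℂ) * χ k x‖ := by
    intro k
    have e : (((A {k} : ℝ) : ℂ)).re = (((‖∑ x, (g x : ℂ) * χ k x‖ : ℝ) : ℂ)).re := by
      rw [hw2 k, Finset.mul_sum, Complex.re_sum, Complex.ofReal_re]
      show ∑ x, g x * ∏ l ∈ {k}, (w l * χ l x).re = _
      refine Finset.sum_congr rfl fun x _ => ?_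
      rw [Finset.prod_singleton]
      have : w k * ((g x : ℂ) * χ k x) = (g x : ℂ) * (w k * χ k x) := by ring
      rw [this, Complex.re_ofReal_mul]
    rwa [Complex.ofReal_re, Complex.ofReal_re] at e
  have hA0 : A ∅ = 0 := by
    show ∑ x, g x * ∏ l ∈ ∅, (w l * χ l x).re = 0
    simp only [Finset.prod_empty, mul_one]
    exact h3
  have hB0 : B ∅ = Fintype.card X := by
    show ∑ x, ∏ l ∈ ∅, (w l * χ l x).re = _
    simp only [Finset.prod_empty, Finset.sum_const, nsmul_eq_mul, mul_one, Finset.card_univ]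
  -- the two evaluations
  have hgF : ∑ x, g x * F x = ∑ J ∈ K.powerset, A J := by
    have : ∀ x, g x * F x = ∑ J ∈ K.powerset, g x * ∏ k ∈ J, (w k * χ k x).re := by
      intro x
      rw [hFe, Finset.mul_sum]
    rw [Finset.sum_congr rfl fun x _ => this x, Finset.sum_comm]
  have hFs : ∑ x, F x = Fintype.card X := by
    rw [Finset.sum_congr rfl fun x _ => hFe x, Finset.sum_comm]
    rw [Finset.sum_eq_single_of_mem ∅ (Finset.empty_mem_powerset K)]
    · exact hB0
    · intro J hJ hne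
      exact hB J hJ hne
  have hup : ∑ x, g x * F x ≤ (Fintype.card X : ℝ) * Mx := by
    rw [← hFs, Finset.sum_mul]
    refine Finset.sum_le_sum fun x _ => ?_
    rw [mul_comm (F x) Mx]
    exact mul_le_mul_of_nonneg_right (le_trans (le_abs_self _) (h2 x)) (hF0 x)
  have hset : K.powerset.filter (fun J => ¬ 2 ≤ J.card) =
      insert ∅ (K.map ⟨singleton, Finset.singleton_injective⟩) := by
    ext J
    simp only [Finset.mem_filter, Finset.mem_powerset, Finset.mem_insert, Finset.mem_map,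
      Function.Embedding.coeFn_mk, not_le]
    constructor
    · rintro ⟨hJ, hc⟩
      rcases Nat.lt_or_ge J.card 1 with h | h
      · left
        exact Finset.card_eq_zero.1 (by omega)
      · right
        obtain ⟨k, hk⟩ := Finset.card_eq_one.1 (by omega : J.card = 1)
        refine ⟨k, ?_, hk.symm⟩
        apply hJ
        rw [hk]
        exact Finset.mem_singleton_self k
    · rintro (rfl | ⟨k, hk, rfl⟩)
      · exact ⟨Finset.empty_subset _, by simp⟩
      · exact ⟨Finset.singleton_subset_iff.2 hk, by simp⟩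
  have hsplit : ∑ J ∈ K.powerset, A J = ∑ J ∈ K.powerset.filter (fun J => 2 ≤ J.card), A J +
      ∑ k ∈ K, ‖∑ x, (g x : ℂ) * χ k x‖ := by
    rw [← Finset.sum_filter_add_sum_filter_not K.powerset (fun J => 2 ≤ J.card), hset,
      Finset.sum_insert, hA0, zero_add, Finset.sum_map]
    · congr 1
      exact Finset.sum_congr rfl fun k _ => hA1 k
    · intro h
      obtain ⟨k, -, hk⟩ := Finset.mem_map.1 h
      exact Finset.singleton_ne_empty k hk
  have hlow : -∑ J ∈ K.powerset.filter (fun J => 2 ≤ J.card), b J ≤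
      ∑ J ∈ K.powerset.filter (fun J => 2 ≤ J.card), A J := by
    rw [← Finset.sum_neg_distrib]
    refine Finset.sum_le_sum fun J hJ => ?_
    obtain ⟨hJ1, hJ2⟩ := Finset.mem_filter.1 hJ
    exact hA J hJ1 hJ2
  rw [hgF, hsplit] at hup
  linarith

end Pool.Agent.H484.AL
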